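import Mathlib
import Pool.Agent.W681.NilRel2

set_option autoImplicit false

/-!
# The Lie-algebraic form of Leibman's bound `d_min(𝒫) ≤ |𝒫| - 1`

Let `X = G/Γ` be an ergodic connected nilsystem with translation by `a`; write `a ∈ γ G⁰` with `γ ∈ Γ`,
let `𝔤` be the rational Lie algebra of the identity component `G⁰` (so `Lie G⁰ = 𝔤 ⊗ ℝ`), and let
`D = log Ad γ`, a nilpotent derivation of `𝔤`.  The groups `G_{k+1}` of the lower central series of `G` have the
Lie algebras `gSer D k`, the Host-Kra factor `𝒵_k` is `G/(G_{k+1}Γ)`, and ergodicity of `a` says that the rational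
hull `A` of (the `G⁰` part of) `log a` satisfies `A + gSer D 1 = 𝔤`.

For integer polynomials `p_0 = 0, p_1, …, p_ℓ` with `p_i(0) = 0` the closure of the orbit of the diagonal
`{(x, a^{p_1(n)} x, …, a^{p_ℓ(n)} x)}` is `H Γ^{ℓ+1}/Γ^{ℓ+1}`, where `H` has the Lie algebra `orbitAlg`: the smallest rational
subalgebra of `𝔤^{ℓ+1}` that contains the velocities of the orbit map `(n, g) ↦ (a^{p_i(n)} g γ^{-p_i(n)})_i`, which are
`(e^{p_i(y) D} x)_i` (moving `g`) and `(p_i'(y) e^{p_i(y) D} x)_i`, `x ∈ A` (moving `n`).  Hence `𝒵_d` is characteristic for the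
family on every such nilsystem exactly when `gSer D d` is contained in `orbitAlg` at each coordinate.
(These facts motivate the definitions; they are not formalised here.)

The theorem: for every essentially distinct family of `ℓ ≥ 2` integer polynomials this holds with `d = ℓ - 1`.
-/

namespace Pool.Agent.Results.MP_d26cd8_an.OrbitAlgebraBound

open Polynomial Pool.Agent.W681.NilRel

/-- The orbit algebra: the smallest subspace of `𝔤^ι`, closed under the coordinatewise bracket, containing
`(e^{p_i(y) D} x)_i` for all `x ∈ 𝔤` and `(p_i'(y) e^{p_i(y) D} x)_i` for all `x ∈ A`, for all natural numbers `y`. -/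
noncomputable def orbitAlg {K : Type} [Field K] {L : Type} [LieRing L] [LieAlgebra K L]
    (D : LieDerivation K L L) (A : Submodule K L) {ι : Type} (p : ι → K[X]) : Submodule K (ι → L) :=
  sInf {h : Submodule K (ι → L) |
    (∀ u ∈ h, ∀ v ∈ h, (fun i => ⁅u i, v i⁆) ∈ h) ∧
    (∀ (y : ℕ) (x : L), (fun i => expD D ((p i).eval (y : K)) x) ∈ h) ∧
    (∀ (y : ℕ), ∀ x ∈ A, (fun i => (derivative (p i)).eval (y : K) •
      expD D ((p i).eval (y : K)) x) ∈ h)}

/-- The coordinates `p_0 = 0, p_1, …, p_ℓ` of the orbit of the diagonal. -/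
noncomputable def coords (K : Type) [Field K] {ℓ : ℕ} (P : Fin ℓ → ℤ[X]) : Fin (ℓ + 1) → K[X] :=
  Fin.cons 0 (fun i => (P i).map (Int.castRingHom K))

/-- `𝒵_d` is characteristic for the family `P` at the level of Lie algebras: for every Lie algebra `L` over a field `K`
of characteristic zero with a derivation `D` such that `gSer D s = 0` for some `s`, and every subspace `A` with
`A + gSer D 1 = L`, the orbit algebra contains `gSer D d` at each of the `ℓ + 1` coordinates. -/
def LieCharacteristic {ℓ : ℕ} (P : Fin ℓ → ℤ[X]) (d : ℕ) : Prop :=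
  ∀ (K : Type) [Field K] [CharZero K] (L : Type) [LieRing L] [LieAlgebra K L]
    (D : LieDerivation K L L) (A : Submodule K L), (∃ s, gSer D s = ⊥) → A ⊔ gSer D 1 = ⊤ →
    ∀ (i : Fin (ℓ + 1)) (z : L), z ∈ gSer D d → (Pi.single i z : Fin (ℓ + 1) → L) ∈ orbitAlg D A (coords K P)

/-- **Lie-algebraic form of Leibman's bound.** For every essentially distinct family `P` of `ℓ ≥ 2` integer
polynomials, `𝒵_{ℓ-1}` is characteristic at the level of Lie algebras. -/
theorem result (ℓ : ℕ) (hℓ : 2 ≤ ℓ) (P : Fin ℓ → ℤ[X]) (hP : ∀ i, 0 < (P i).natDegree)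
    (hPP : ∀ i j, i ≠ j → 0 < (P i - P j).natDegree) : LieCharacteristic P (ℓ - 1) := by
  intro K _ _ L _ _ D A hs hA i z hz
  obtain ⟨s, hs⟩ := hs
  obtain ⟨m, rfl⟩ := Nat.exists_eq_add_of_le hℓ
  rw [orbitAlg, Submodule.mem_sInf]
  rintro h ⟨h0, h1, h2⟩
  have hinj : Function.Injective (Int.castRingHom K) := Int.cast_injective
  have hp : ∀ i j, i ≠ j → 0 < (coords K P i - coords K P j).natDegree := by
    intro i j hij
    refine Fin.cases ?_ ?_ i (motive := fun i => i ≠ j → 0 < (coords K P i - coords K P j).natDegree) hij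
    · intro h0j
      refine Fin.cases ?_ ?_ j (motive := fun j => (0 : Fin (2 + m + 1)) ≠ j →
        0 < (coords K P 0 - coords K P j).natDegree) h0j
      · intro hh; exact absurd rfl hh
      · intro j _
        simp only [coords, Fin.cons_zero, Fin.cons_succ, zero_sub, natDegree_neg]
        rw [natDegree_map_eq_of_injective hinj]
        exact hP j
    · intro i hij
      refine Fin.cases ?_ ?_ j (motive := fun j => i.succ ≠ j →
        0 < (coords K P i.succ - coords K P j).natDegree) hij
      · intro _
        simp only [coords, Fin.cons_zero, Fin.cons_succ, sub_zero]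
        rw [natDegree_map_eq_of_injective hinj]
        exact hP i
      · intro j hij
        simp only [coords, Fin.cons_succ]
        rw [← Polynomial.map_sub, natDegree_map_eq_of_injective hinj]
        exact hPP i j fun e => hij (e ▸ rfl)
  have h2' := hull D s hs (coords K P) h h0 h1 A hA h2
  refine main D s hs (coords K P) hp (m + 1) ?_ h h0 h1 h2' i z ?_
  · rw [Fintype.card_fin]; omega
  · have e : 2 + m - 1 = m + 1 := by omega
    rwa [e] at hz

end Pool.Agent.Results.MP_d26cd8_an.OrbitAlgebraBound
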